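import Pool.Agent.Helper76.CV.Goals

/-!
# Project CV (MP_eec6f5_gt): packet CCE, the exponential ends far from the end points.
-/

set_option autoImplicit false

open scoped ContDiff

namespace Pool.Agent.Helper9.CV.CCE

open Pool.Agent.Helper76.CV

theorem t (h : Pool.Agent.Helper76.CV.STB) : Pool.Agent.Helper76.CV.CCE := by
  obtain ⟨K, hK, hS⟩ := h
  refine ⟨144 * K, by positivity, ?_⟩
  intro P t hP ht
  have hP0 : 0 < P := lt_of_lt_of_le one_pos hP
  have hsm : ContDiff ℝ ∞ Real.smoothTransition := Real.smoothTransition.contDiff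
  have hd0 : ∀ x, HasDerivAt Real.smoothTransition (deriv Real.smoothTransition x) x := fun x =>
    (hsm.differentiable (by simp) x).hasDerivAt
  have hsm1 : ContDiff ℝ ∞ (deriv Real.smoothTransition) := (contDiff_infty_iff_deriv.1 hsm).2
  have hd1 : ∀ x, HasDerivAt (deriv Real.smoothTransition)
      (deriv (deriv Real.smoothTransition) x) x := fun x =>
    (hsm1.differentiable (by simp) x).hasDerivAt
  set b : ℝ := 8 / P with hb
  have hb0 : 0 < b := by positivity
  have hb8 : b ≤ 8 := by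
    rw [hb, div_le_iff₀ hP0]
    linarith
  have hb64 : b ^ 2 ≤ 64 := by nlinarith
  have hg : ∀ u : ℝ, HasDerivAt (fun u : ℝ => 2 - 8 * u / P) (-b) u := by
    intro u
    have h1 : HasDerivAt (fun u : ℝ => 2 - 8 * u / P) (0 - 8 * 1 / P) u :=
      (hasDerivAt_const u 2).sub (((hasDerivAt_id u).const_mul 8).div_const P)
    convert h1 using 1
    rw [hb]
    ring
  have hex : ∀ u : ℝ, HasDerivAt (fun u : ℝ => Real.exp (-(4 * u))) (Real.exp (-(4 * u)) * (-4)) u := by
    intro u
    have h1 : HasDerivAt (fun u : ℝ => -(4 * u)) (-(4 * 1)) u := ((hasDerivAt_id u).const_mul 4).neg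
    have h2 := h1.exp
    convert h2 using 1
    ring
  have hc0 : ∀ u : ℝ, HasDerivAt (fun u => chi P u)
      (deriv Real.smoothTransition (2 - 8 * u / P) * (-b)) u := fun u =>
    (hd0 (2 - 8 * u / P)).comp u (hg u)
  have hc1 : ∀ u : ℝ, HasDerivAt (fun u => deriv Real.smoothTransition (2 - 8 * u / P))
      (deriv (deriv Real.smoothTransition) (2 - 8 * u / P) * (-b)) u := by
    intro u
    have h1 := hd1 (2 - 8 * u / P)
    exact HasDerivAt.comp (h₂ := deriv Real.smoothTransition)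
      (h := fun u : ℝ => 2 - 8 * u / P) u h1 (hg u)
  have hF1 : ∀ u : ℝ, HasDerivAt (fun u => chi P u * Real.exp (-(4 * u)))
      (deriv Real.smoothTransition (2 - 8 * u / P) * (-b) * Real.exp (-(4 * u)) +
        chi P u * (Real.exp (-(4 * u)) * (-4))) u := fun u => (hc0 u).mul (hex u)
  have eF1 : deriv (fun u => chi P u * Real.exp (-(4 * u))) = fun u =>
      deriv Real.smoothTransition (2 - 8 * u / P) * (-b) * Real.exp (-(4 * u)) +
        chi P u * (Real.exp (-(4 * u)) * (-4)) := funext fun u => (hF1 u).deriv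
  have hF2 : HasDerivAt (fun u =>
      deriv Real.smoothTransition (2 - 8 * u / P) * (-b) * Real.exp (-(4 * u)) +
        chi P u * (Real.exp (-(4 * u)) * (-4)))
      ((deriv (deriv Real.smoothTransition) (2 - 8 * t / P) * (-b) * (-b)) *
        Real.exp (-(4 * t)) +
        deriv Real.smoothTransition (2 - 8 * t / P) * (-b) * (Real.exp (-(4 * t)) * (-4)) +
        (deriv Real.smoothTransition (2 - 8 * t / P) * (-b) * (Real.exp (-(4 * t)) * (-4)) +
          chi P t * (Real.exp (-(4 * t)) * (-4) * (-4)))) t :=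
    (((hc1 t).mul_const (-b)).mul (hex t)).add ((hc0 t).mul ((hex t).mul_const (-4)))
  have hE0 : 0 < Real.exp (-(4 * t)) := Real.exp_pos _
  have hE : Real.exp (-(4 * t)) ≤ Real.exp (-(P / 2)) := Real.exp_le_exp.2 (by linarith)
  obtain ⟨k0, k1, k2⟩ := hS (2 - 8 * t / P)
  have hchi : chi P t = Real.smoothTransition (2 - 8 * t / P) := rfl
  unfold Sm
  rw [eF1, hF2.deriv, hchi]
  simp only [hchi]
  set s0 := Real.smoothTransition (2 - 8 * t / P) with hs0
  set s1 := deriv Real.smoothTransition (2 - 8 * t / P) with hs1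
  set s2 := deriv (deriv Real.smoothTransition) (2 - 8 * t / P) with hs2
  set E := Real.exp (-(4 * t)) with hEd
  have hKE : K * E ≤ K * Real.exp (-(P / 2)) := mul_le_mul_of_nonneg_left hE hK.le
  have hKE0 : 0 < K * E := by positivity
  have q1 : |s1 * b| ≤ K * 8 := by
    rw [abs_mul, abs_of_pos hb0]
    exact mul_le_mul k1 hb8 hb0.le hK.le
  have q2 : |s2 * b ^ 2| ≤ K * 64 := by
    rw [abs_mul, abs_of_nonneg (sq_nonneg b)]
    exact mul_le_mul k2 hb64 (sq_nonneg b) hK.le
  rw [abs_le] at k0 q1 q2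
  refine ⟨?_, ?_, ?_⟩
  · rw [abs_mul, abs_of_pos hE0]
    have h1 : |s0| ≤ K := abs_le.2 k0
    have h2 : |s0| * E ≤ K * E := mul_le_mul_of_nonneg_right h1 hE0.le
    linarith
  · have e1 : s1 * (-b) * E + s0 * (E * (-4)) = (-(s1 * b) - 4 * s0) * E := by ring
    rw [e1, abs_mul, abs_of_pos hE0]
    have h1 : |-(s1 * b) - 4 * s0| ≤ 12 * K := abs_le.2 ⟨by linarith, by linarith⟩
    have h2 : |-(s1 * b) - 4 * s0| * E ≤ 12 * K * E := mul_le_mul_of_nonneg_right h1 hE0.le
    linarith
  · have e1 : s2 * (-b) * (-b) * E + s1 * (-b) * (E * (-4)) +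
        (s1 * (-b) * (E * (-4)) + s0 * (E * (-4) * (-4))) =
        (s2 * b ^ 2 + 8 * (s1 * b) + 16 * s0) * E := by ring
    rw [e1, abs_mul, abs_of_pos hE0]
    have h1 : |s2 * b ^ 2 + 8 * (s1 * b) + 16 * s0| ≤ 144 * K :=
      abs_le.2 ⟨by linarith, by linarith⟩
    have h2 : |s2 * b ^ 2 + 8 * (s1 * b) + 16 * s0| * E ≤ 144 * K * E :=
      mul_le_mul_of_nonneg_right h1 hE0.le
    linarith

end Pool.Agent.Helper9.CV.CCE
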