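import Pool.Agent.Helper76.CV.Goals

/-!
# Project CV (MP_eec6f5_gt): packet CMP, `X D` is compact.
-/

set_option autoImplicit false

namespace Pool.Agent.Helper9.CV.CMP

open Pool.Agent.Helper76.CV

theorem t (h1 : Pool.Agent.Helper76.CV.SMH) (h2 : Pool.Agent.Helper76.CV.XB) :
    Pool.Agent.Helper76.CV.CMP := by
  intro r D hD
  have hc : Continuous (H D) := (h1 r D hD).2.2.2.continuous
  have hcl : IsClosed (X D) := isClosed_singleton.preimage hc
  obtain ⟨R, hR⟩ := hD.bd
  refine Metric.isCompact_of_isClosed_isBounded hcl ?_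
  refine (Metric.isBounded_closedBall (x := (0 : V r)) (r := max (max R 1) (52 / 25))).subset ?_
  intro p hp
  obtain ⟨-, -, hy, hC, hs, -⟩ := h2 r D p hD hp
  have ht := hR _ hC
  rw [mem_closedBall_zero_iff, Prod.norm_def, Prod.norm_def]
  refine max_le_max (max_le_max ?_ hy) ?_
  · rw [Real.norm_eq_abs]
    exact ht
  · rw [Real.norm_eq_abs]
    exact hs

end Pool.Agent.Helper9.CV.CMP
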